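import Mathlib

/-! Return maps made of three power letters `x ↦ c * x ^ l + e`: at most five fixed points. -/

namespace Pool.H32.PC

open Real

/-- `f` has at most `n` zeros in `I`. -/
def Z (I : Set ℝ) (f : ℝ → ℝ) (n : ℕ) : Prop :=
  ∀ s : Finset ℝ, (∀ x ∈ s, x ∈ I ∧ f x = 0) → s.card ≤ n

theorem Z.mono {I : Set ℝ} {f : ℝ → ℝ} {m n : ℕ} (h : Z I f m) (hmn : m ≤ n) : Z I f n :=
  fun s hs => (h s hs).trans hmn

/-- From `k + 1` zeros of `f` one gets `k` zeros of `f'` below the last one. -/
theorem rolle_aux {I : Set ℝ} (hI : ∀ x ∈ I, ∀ z, x ≤ z → z ∈ I) {f f' : ℝ → ℝ}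
    (hf : ∀ x ∈ I, HasDerivAt f (f' x) x) :
    ∀ (k : ℕ) (s : Finset ℝ), s.card = k + 1 → (∀ x ∈ s, x ∈ I ∧ f x = 0) →
      ∃ t : Finset ℝ, t.card = k ∧ (∀ x ∈ t, x ∈ I ∧ f' x = 0) ∧
        ∀ x ∈ t, ∃ y ∈ s, x < y := by
  intro k
  induction k with
  | zero =>
    intro s _ _
    exact ⟨∅, rfl, by simp, by simp⟩
  | succ k ih =>
    intro s hs hz
    have hne : s.Nonempty := by
      rw [← Finset.card_pos]; omega
    set M := s.max' hne with hM
    have hMs : M ∈ s := s.max'_mem hne
    have hcard : (s.erase M).card = k + 1 := by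
      rw [Finset.card_erase_of_mem hMs]; omega
    obtain ⟨t, ht, htz, htl⟩ := ih (s.erase M) hcard
      (fun x hx => hz x (Finset.mem_of_mem_erase hx))
    have hne' : (s.erase M).Nonempty := by
      rw [← Finset.card_pos]; omega
    set m := (s.erase M).max' hne' with hm
    have hms : m ∈ s.erase M := (s.erase M).max'_mem hne'
    have hmM : m < M := by
      have h1 : m ≤ M := s.le_max' m (Finset.mem_of_mem_erase hms)
      exact lt_of_le_of_ne h1 (Finset.ne_of_mem_erase hms)
    have hmI : m ∈ I := (hz m (Finset.mem_of_mem_erase hms)).1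
    have hcont : ContinuousOn f (Set.Icc m M) := by
      intro x hx
      exact (hf x (hI m hmI x hx.1)).continuousAt.continuousWithinAt
    have heq : f m = f M := by
      rw [(hz m (Finset.mem_of_mem_erase hms)).2, (hz M hMs).2]
    obtain ⟨z, hz1, hz2⟩ := exists_hasDerivAt_eq_zero hmM hcont heq
      (fun x hx => hf x (hI m hmI x hx.1.le))
    have hzt : z ∉ t := by
      intro hzt
      obtain ⟨y, hy, hzy⟩ := htl z hzt
      have : y ≤ m := (s.erase M).le_max' y hy
      exact absurd hz1.1 (not_lt.mpr (by linarith))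
    refine ⟨insert z t, ?_, ?_, ?_⟩
    · rw [Finset.card_insert_of_notMem hzt, ht]
    · intro x hx
      rcases Finset.mem_insert.mp hx with rfl | hx
      · exact ⟨hI m hmI x hz1.1.le, hz2⟩
      · exact htz x hx
    · intro x hx
      rcases Finset.mem_insert.mp hx with rfl | hx
      · exact ⟨M, hMs, hz1.2⟩
      · obtain ⟨y, hy, hxy⟩ := htl x hx
        exact ⟨y, Finset.mem_of_mem_erase hy, hxy⟩

theorem rolle {I : Set ℝ} (hI : ∀ x ∈ I, ∀ z, x ≤ z → z ∈ I) {f f' : ℝ → ℝ}
    (hf : ∀ x ∈ I, HasDerivAt f (f' x) x) {n : ℕ} (h : Z I f' n) : Z I f (n + 1) := by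
  intro s hs
  by_contra hcon
  have hlt : n + 1 < s.card := not_le.mp hcon
  obtain ⟨t, ht, htz, _⟩ := rolle_aux hI hf (s.card - 1) s (by omega) hs
  have := h t htz
  omega

/-- Zero derivative on an upper set: constant. -/
theorem const_of_zero {I : Set ℝ} (hI : ∀ x ∈ I, ∀ z, x ≤ z → z ∈ I) {f f' : ℝ → ℝ}
    (hf : ∀ x ∈ I, HasDerivAt f (f' x) x) (h0 : ∀ x ∈ I, f' x = 0) :
    ∀ x ∈ I, ∀ z ∈ I, f x = f z := by
  have key : ∀ x ∈ I, ∀ z, x < z → f x = f z := by
    intro x hx z hxz
    have hcont : ContinuousOn f (Set.Icc x z) := by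
      intro y hy
      exact (hf y (hI x hx y hy.1)).continuousAt.continuousWithinAt
    obtain ⟨c, hc, hc2⟩ := exists_hasDerivAt_eq_slope f f' hxz hcont
      (fun y hy => hf y (hI x hx y hy.1.le))
    rw [h0 c (hI x hx c hc.1.le)] at hc2
    have h1 : z - x ≠ 0 := by linarith
    have h2 : f z - f x = 0 := by
      have := hc2.symm
      rcases div_eq_zero_iff.mp this with h | h
      · exact h
      · exact absurd h h1
    linarith
  intro x hx z hz
  rcases lt_trichotomy x z with h | h | h
  · exact key x hx z h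
  · rw [h]
  · exact (key z hz x h).symm

/-- The set of positive reals. -/
theorem upper_pos : ∀ x ∈ {v : ℝ | 0 < v}, ∀ z, x ≤ z → z ∈ {v : ℝ | 0 < v} := by
  intro x hx z hz
  exact lt_of_lt_of_le hx hz

/-- A four term function with exponents `b + 1, b, 1, 0` has at most three positive zeros or
vanishes on the positive axis. -/
theorem four_terms (b A B C D : ℝ) (hb : 0 < b) :
    Z {v : ℝ | 0 < v} (fun v => A * v ^ (b + 1) + B * v ^ b + C * v + D) 3 ∨
      ∀ v : ℝ, 0 < v → A * v ^ (b + 1) + B * v ^ b + C * v + D = 0 := by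
  set J : Set ℝ := {v : ℝ | 0 < v} with hJ
  set F : ℝ → ℝ := fun v => A * v ^ (b + 1) + B * v ^ b + C * v + D with hF
  set F' : ℝ → ℝ := fun v => A * ((b + 1) * v ^ b) + B * (b * v ^ (b - 1)) + C with hF'
  set K : ℝ → ℝ := fun v => A * (b + 1) * v + B * b + C * v ^ (1 - b) with hK
  set K' : ℝ → ℝ := fun v => A * (b + 1) + C * ((1 - b) * v ^ (-b)) with hK'
  have hdF : ∀ v ∈ J, HasDerivAt F (F' v) v := by
    intro v hv
    have hv0 : v ≠ 0 := ne_of_gt hv
    have h1 := (Real.hasDerivAt_rpow_const (x := v) (p := b + 1) (Or.inl hv0)).const_mul A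
    have h2 := (Real.hasDerivAt_rpow_const (x := v) (p := b) (Or.inl hv0)).const_mul B
    have h3 := (hasDerivAt_id v).const_mul C
    have h4 := ((h1.add h2).add h3).add_const D
    have he : b + 1 - 1 = b := by ring
    rw [he] at h4
    refine h4.congr_deriv ?_
    simp only [hF']
    ring
  have hdK : ∀ v ∈ J, HasDerivAt K (K' v) v := by
    intro v hv
    have hv0 : v ≠ 0 := ne_of_gt hv
    have h1 := (Real.hasDerivAt_rpow_const (x := v) (p := 1 - b) (Or.inl hv0)).const_mul C
    have h3 := (hasDerivAt_id v).const_mul (A * (b + 1))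
    have h4 := (h3.add_const (B * b)).add h1
    have he : 1 - b - 1 = -b := by ring
    rw [he] at h4
    refine h4.congr_deriv ?_
    simp only [hK']
    ring
  have hFK : ∀ v ∈ J, F' v = v ^ (b - 1) * K v := by
    intro v hv
    have hv' : (0 : ℝ) < v := hv
    have e1 : v ^ (b - 1) * v = v ^ b := by
      have := Real.rpow_add_one (ne_of_gt hv') (b - 1)
      rw [← this]; congr 1; ring
    have e2 : v ^ (b - 1) * v ^ (1 - b) = 1 := by
      rw [← Real.rpow_add hv']; simp
    simp only [hF', hK]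
    calc A * ((b + 1) * v ^ b) + B * (b * v ^ (b - 1)) + C
        = A * (b + 1) * (v ^ (b - 1) * v) + B * b * v ^ (b - 1)
            + C * (v ^ (b - 1) * v ^ (1 - b)) := by rw [e1, e2]; ring
      _ = v ^ (b - 1) * (A * (b + 1) * v + B * b + C * v ^ (1 - b)) := by ring
  have hFK0 : ∀ v ∈ J, F' v = 0 → K v = 0 := by
    intro v hv h
    rw [hFK v hv] at h
    rcases mul_eq_zero.mp h with h | h
    · exact absurd h (ne_of_gt (Real.rpow_pos_of_pos hv _))
    · exact h
  have hZ : ∀ n, Z J K n → Z J F (n + 1) := by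
    intro n h
    refine rolle upper_pos hdF ?_
    intro s hs
    exact h s (fun x hx => ⟨(hs x hx).1, hFK0 x (hs x hx).1 (hs x hx).2⟩)
  by_cases hQ : C * (1 - b) = 0
  · by_cases hP : A * (b + 1) = 0
    · -- `K'` vanishes
      have hK'0 : ∀ v ∈ J, K' v = 0 := by
        intro v _
        simp only [hK']
        rw [hP, ← mul_assoc, hQ]; ring
      have hKc := const_of_zero upper_pos hdK hK'0
      by_cases hk : K 1 = 0
      · have hF'0 : ∀ v ∈ J, F' v = 0 := by
          intro v hv
          rw [hFK v hv, hKc v hv 1 (by simp), hk, mul_zero]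
        have hFc := const_of_zero upper_pos hdF hF'0
        by_cases hF1 : F 1 = 0
        · right
          intro v hv
          have := hFc v hv 1 (by simp)
          rw [hF1] at this
          exact this
        · left
          intro s hs
          have : s = ∅ := by
            by_contra hne
            obtain ⟨x, hx⟩ := Finset.nonempty_iff_ne_empty.mpr hne
            have h1 := hFc x (hs x hx).1 1 (by simp)
            rw [(hs x hx).2] at h1
            exact hF1 h1.symm
          rw [this]; simp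
      · left
        have : Z J K 0 := by
          intro s hs
          have : s = ∅ := by
            by_contra hne
            obtain ⟨x, hx⟩ := Finset.nonempty_iff_ne_empty.mpr hne
            have h1 := hKc x (hs x hx).1 1 (by simp)
            rw [(hs x hx).2] at h1
            exact hk h1.symm
          rw [this]; simp
        exact (hZ 0 this).mono (by norm_num)
    · left
      have : Z J K' 0 := by
        intro s hs
        have : s = ∅ := by
          by_contra hne
          obtain ⟨x, hx⟩ := Finset.nonempty_iff_ne_empty.mpr hne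
          have h1 := (hs x hx).2
          simp only [hK'] at h1
          rw [← mul_assoc, hQ, zero_mul, add_zero] at h1
          exact hP h1
        rw [this]; simp
      exact (hZ 1 (rolle upper_pos hdK this)).mono (by norm_num)
  · left
    have : Z J K' 1 := by
      intro s hs
      rw [Finset.card_le_one]
      intro x hx y hy
      have h1 := (hs x hx).2
      have h2 := (hs y hy).2
      have hx0 : (0 : ℝ) < x := (hs x hx).1
      have hy0 : (0 : ℝ) < y := (hs y hy).1
      simp only [hK'] at h1 h2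
      have h3 : C * (1 - b) * x ^ (-b) = C * (1 - b) * y ^ (-b) := by linarith
      have h4 : x ^ (-b) = y ^ (-b) := mul_left_cancel₀ hQ h3
      have hb' : (-b) ≠ 0 := by linarith
      exact (Real.rpow_left_inj hx0.le hy0.le hb').mp h4
    exact (hZ 2 (rolle upper_pos hdK this)).mono (by norm_num)

/-- **Three letters**: a composition of three maps `x ↦ c * x ^ l + e` with `c, l > 0` has at most
five fixed points on its domain, or it is the identity there. -/
theorem three_letters (a b c c1 c2 c3 e1 e2 e3 : ℝ) (ha : 0 < a) (hb : 0 < b) (hc : 0 < c)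
    (h1 : 0 < c1) (h2 : 0 < c2) (h3 : 0 < c3) (y1 y2 y3 : ℝ → ℝ)
    (hy1 : ∀ x, y1 x = c1 * x ^ a + e1) (hy2 : ∀ x, y2 x = c2 * (y1 x) ^ b + e2)
    (hy3 : ∀ x, y3 x = c3 * (y2 x) ^ c + e3) :
    (∀ s : Finset ℝ, (∀ x ∈ s, (0 < x ∧ 0 < y1 x ∧ 0 < y2 x) ∧ y3 x = x) → s.card ≤ 5) ∨
      ∀ x, 0 < x → 0 < y1 x → 0 < y2 x → y3 x = x := by
  set I : Set ℝ := {x | 0 < x ∧ 0 < y1 x ∧ 0 < y2 x} with hIdef
  have hI : ∀ x ∈ I, ∀ z, x ≤ z → z ∈ I := by
    rintro x ⟨hx, hx1, hx2⟩ z hz
    have hz0 : 0 < z := lt_of_lt_of_le hx hz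
    have m1 : y1 x ≤ y1 z := by
      rw [hy1, hy1]
      have := Real.rpow_le_rpow hx.le hz ha.le
      nlinarith
    have hz1 : 0 < y1 z := lt_of_lt_of_le hx1 m1
    have m2 : y2 x ≤ y2 z := by
      rw [hy2, hy2]
      have := Real.rpow_le_rpow hx1.le m1 hb.le
      nlinarith
    exact ⟨hz0, hz1, lt_of_lt_of_le hx2 m2⟩
  set d1 : ℝ → ℝ := fun x => c1 * (a * x ^ (a - 1)) with hd1
  set d2 : ℝ → ℝ := fun x => c2 * (d1 x * b * (y1 x) ^ (b - 1)) with hd2
  set d3 : ℝ → ℝ := fun x => c3 * (d2 x * c * (y2 x) ^ (c - 1)) with hd3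
  have hD1 : ∀ x ∈ I, HasDerivAt y1 (d1 x) x := by
    intro x hx
    have h := ((Real.hasDerivAt_rpow_const (x := x) (p := a) (Or.inl (ne_of_gt hx.1))).const_mul
      c1).add_const e1
    have he : y1 = fun x => c1 * x ^ a + e1 := funext hy1
    rw [he]
    exact h
  have hD2 : ∀ x ∈ I, HasDerivAt y2 (d2 x) x := by
    intro x hx
    have h := (((hD1 x hx).rpow_const (p := b) (Or.inl (ne_of_gt hx.2.1))).const_mul
      c2).add_const e2
    have he : y2 = fun x => c2 * (y1 x) ^ b + e2 := funext hy2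
    rw [he]
    exact h
  have hD3 : ∀ x ∈ I, HasDerivAt y3 (d3 x) x := by
    intro x hx
    have h := (((hD2 x hx).rpow_const (p := c) (Or.inl (ne_of_gt hx.2.2))).const_mul
      c3).add_const e3
    have he : y3 = fun x => c3 * (y2 x) ^ c + e3 := funext hy3
    rw [he]
    exact h
  have hd1p : ∀ x ∈ I, 0 < d1 x := by
    intro x hx
    have := Real.rpow_pos_of_pos hx.1 (a - 1)
    simp only [hd1]; positivity
  have hd2p : ∀ x ∈ I, 0 < d2 x := by
    intro x hx
    have := Real.rpow_pos_of_pos hx.2.1 (b - 1)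
    have h' := hd1p x hx
    simp only [hd2]; positivity
  have hd3p : ∀ x ∈ I, 0 < d3 x := by
    intro x hx
    have := Real.rpow_pos_of_pos hx.2.2 (c - 1)
    have h' := hd2p x hx
    simp only [hd3]; positivity
  -- logarithm of the derivative
  set G : ℝ → ℝ := fun x => Real.log (c3 * c * c2 * b * c1 * a) + (c - 1) * Real.log (y2 x)
    + (b - 1) * Real.log (y1 x) + (a - 1) * Real.log x with hG
  set G' : ℝ → ℝ := fun x => (c - 1) * (d2 x / y2 x) + (b - 1) * (d1 x / y1 x)
    + (a - 1) * x⁻¹ with hG'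
  have hDG : ∀ x ∈ I, HasDerivAt G (G' x) x := by
    intro x hx
    have g2 := ((hD2 x hx).log (ne_of_gt hx.2.2)).const_mul (c - 1)
    have g1 := ((hD1 x hx).log (ne_of_gt hx.2.1)).const_mul (b - 1)
    have g0 := (Real.hasDerivAt_log (ne_of_gt hx.1)).const_mul (a - 1)
    have := ((g2.const_add (Real.log (c3 * c * c2 * b * c1 * a))).add g1).add g0
    exact this
  have hGd : ∀ x ∈ I, d3 x = Real.exp (G x) := by
    intro x hx
    have p0 := Real.rpow_pos_of_pos hx.1 (a - 1)
    have p1 := Real.rpow_pos_of_pos hx.2.1 (b - 1)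
    have p2 := Real.rpow_pos_of_pos hx.2.2 (c - 1)
    have hcc : 0 < c3 * c * c2 * b * c1 * a := by positivity
    have e : Real.exp (G x) = (c3 * c * c2 * b * c1 * a) * (y2 x) ^ (c - 1) *
        (y1 x) ^ (b - 1) * x ^ (a - 1) := by
      simp only [hG]
      rw [Real.exp_add, Real.exp_add, Real.exp_add, Real.exp_log hcc,
        Real.rpow_def_of_pos hx.2.2, Real.rpow_def_of_pos hx.2.1, Real.rpow_def_of_pos hx.1]
      ring_nf
    rw [e]
    simp only [hd3, hd2, hd1]
    ring
  -- the four term function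
  have hGF : ∀ x ∈ I, x * y1 x * y2 x * G' x =
      c2 * (a * b * c - 1) * (y1 x) ^ (b + 1) + (-(c2 * e1 * a * (b * c - 1))) * (y1 x) ^ b
        + e2 * (a * b - 1) * y1 x + (-(e1 * e2 * a * (b - 1))) := by
    intro x hx
    have hx0 : x ≠ 0 := ne_of_gt hx.1
    have hy10 : y1 x ≠ 0 := ne_of_gt hx.2.1
    have hy20 : y2 x ≠ 0 := ne_of_gt hx.2.2
    have q1 : x * d1 x = a * (y1 x - e1) := by
      have : x ^ (a - 1) * x = x ^ a := by
        have := Real.rpow_add_one hx0 (a - 1)
        rw [← this]; congr 1; ring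
      simp only [hd1]
      rw [hy1 x]
      calc x * (c1 * (a * x ^ (a - 1))) = c1 * a * (x ^ (a - 1) * x) := by ring
        _ = a * (c1 * x ^ a + e1 - e1) := by rw [this]; ring
    have q2 : y1 x * (x * d2 x) = b * (y2 x - e2) * (a * (y1 x - e1)) := by
      have : (y1 x) ^ (b - 1) * y1 x = (y1 x) ^ b := by
        have := Real.rpow_add_one hy10 (b - 1)
        rw [← this]; congr 1; ring
      simp only [hd2]
      calc y1 x * (x * (c2 * (d1 x * b * (y1 x) ^ (b - 1))))
          = c2 * b * ((y1 x) ^ (b - 1) * y1 x) * (x * d1 x) := by ring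
        _ = b * (y2 x - e2) * (a * (y1 x - e1)) := by rw [this, q1, hy2 x]; ring
    have q3 : (y1 x) ^ (b + 1) = (y1 x) ^ b * y1 x := Real.rpow_add_one hy10 b
    have expand : x * y1 x * y2 x * G' x = (c - 1) * (y1 x * (x * d2 x))
        + (b - 1) * (x * d1 x) * y2 x + (a - 1) * y1 x * y2 x := by
      simp only [hG']
      field_simp
    rw [expand, q1, q2, q3, hy2 x]
    ring
  set h : ℝ → ℝ := fun x => y3 x - x with hh
  set h' : ℝ → ℝ := fun x => d3 x - 1 with hh'
  have hDh : ∀ x ∈ I, HasDerivAt h (h' x) x := by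
    intro x hx
    exact (hD3 x hx).sub (hasDerivAt_id x)
  have hzero : ∀ x ∈ I, h' x = 0 → G x = 0 := by
    intro x hx hx0
    simp only [hh'] at hx0
    rw [hGd x hx] at hx0
    have : Real.exp (G x) = 1 := by linarith
    exact (Real.exp_eq_one_iff (G x)).mp this
  rcases four_terms b (c2 * (a * b * c - 1)) (-(c2 * e1 * a * (b * c - 1)))
    (e2 * (a * b - 1)) (-(e1 * e2 * a * (b - 1))) hb with hZ | hall
  · left
    have hG3 : Z I G' 3 := by
      intro s hs
      have hinj : Set.InjOn y1 (s : Set ℝ) := by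
        intro x hx z hz hxz
        have hx' := (hs x hx).1
        have hz' := (hs z hz).1
        rw [hy1, hy1] at hxz
        have : x ^ a = z ^ a := by
          have : c1 * x ^ a = c1 * z ^ a := by linarith
          exact mul_left_cancel₀ (ne_of_gt h1) this
        exact (Real.rpow_left_inj hx'.1.le hz'.1.le (ne_of_gt ha)).mp this
      have hc' := hZ (s.image y1) (by
        intro v hv
        obtain ⟨x, hx, rfl⟩ := Finset.mem_image.mp hv
        refine ⟨(hs x hx).1.2.1, ?_⟩
        have := hGF x (hs x hx).1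
        rw [(hs x hx).2, mul_zero] at this
        exact this.symm)
      rwa [Finset.card_image_of_injOn hinj] at hc'
    have hG4 : Z I G 4 := rolle hI hDG hG3
    have hh4 : Z I h' 4 := by
      intro s hs
      exact hG4 s (fun x hx => ⟨(hs x hx).1, hzero x (hs x hx).1 (hs x hx).2⟩)
    have hh5 : Z I h 5 := rolle hI hDh hh4
    intro s hs
    refine hh5 s (fun x hx => ⟨(hs x hx).1, ?_⟩)
    simp only [hh]
    rw [(hs x hx).2, sub_self]
  · -- `G'` vanishes on `I`
    have hG0 : ∀ x ∈ I, G' x = 0 := by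
      intro x hx
      have e := hGF x hx
      rw [hall (y1 x) hx.2.1] at e
      have hne : x * y1 x * y2 x ≠ 0 :=
        mul_ne_zero (mul_ne_zero (ne_of_gt hx.1) (ne_of_gt hx.2.1)) (ne_of_gt hx.2.2)
      rcases mul_eq_zero.mp e with e | e
      · exact absurd e hne
      · exact e
    have hGc := const_of_zero hI hDG hG0
    by_cases hex : ∃ x0 ∈ I, h x0 = 0 ∧ G x0 = 0
    · right
      obtain ⟨x0, hx0, hx1, hx2⟩ := hex
      have hh0 : ∀ x ∈ I, h' x = 0 := by
        intro x hx
        simp only [hh']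
        rw [hGd x hx, hGc x hx x0 hx0, hx2, Real.exp_zero, sub_self]
      have hhc := const_of_zero hI hDh hh0
      intro x p0 p1 p2
      have := hhc x ⟨p0, p1, p2⟩ x0 hx0
      rw [hx1] at this
      simp only [hh] at this
      linarith
    · left
      have hh1 : ∀ s : Finset ℝ, (∀ x ∈ s, x ∈ I ∧ h x = 0) → s.card ≤ 1 := by
        intro s hs
        by_contra hcon
        have hlt : 1 < s.card := not_le.mp hcon
        obtain ⟨t, ht, htz, _⟩ := rolle_aux hI hDh (s.card - 1) s (by omega) hs
        have hpos : 0 < t.card := by omega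
        obtain ⟨z, hz⟩ := Finset.card_pos.mp hpos
        obtain ⟨x, hx⟩ := Finset.card_pos.mp (show 0 < s.card by omega)
        have gz := hzero z (htz z hz).1 (htz z hz).2
        exact hex ⟨x, (hs x hx).1, (hs x hx).2, by rw [hGc x (hs x hx).1 z (htz z hz).1, gz]⟩
      intro s hs
      refine (hh1 s (fun x hx => ⟨(hs x hx).1, ?_⟩)).trans (by norm_num)
      simp only [hh]
      rw [(hs x hx).2, sub_self]

end Pool.H32.PC
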