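import Pool.Agent.H89.PW.Main
import Pool.Agent.H32.PW.ThreeAux

/-! Words of three letters: at most five fixed points. -/

namespace Pool.H89.PW

open Set Real

theorem encard_le_of_finset {F : Set ℝ} {n : ℕ}
    (h : ∀ s : Finset ℝ, (∀ x ∈ s, x ∈ F) → s.card ≤ n) : F.encard ≤ n := by
  by_contra hcon
  have hlt : (n : ℕ∞) < F.encard := not_le.mp hcon
  have hle : ((n + 1 : ℕ) : ℕ∞) ≤ F.encard := by
    push_cast
    exact Order.add_one_le_of_lt hlt
  obtain ⟨t, htF, ht⟩ := Set.exists_subset_encard_eq hle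
  have hfin : t.Finite := Set.finite_of_encard_eq_coe ht
  have hcard : hfin.toFinset.card = n + 1 := by
    have h1 := hfin.encard_eq_coe_toFinset_card
    rw [ht] at h1
    exact_mod_cast h1.symm
  have := h hfin.toFinset (fun x hx => htF (hfin.mem_toFinset.mp hx))
  omega

/-- **Three letters**: at most five fixed points, or the identity. -/
theorem three_letters (l c e : ℕ → ℝ) (hl : ∀ i < 3, 0 < l i) (hc : ∀ i < 3, 0 < c i) :
    (∀ x ∈ dom l c e 3, orb l c e x 3 = x) ∨ (fixedPts l c e 3).encard ≤ 5 := by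
  rcases Pool.H32.PC.three_letters (l 0) (l 1) (l 2) (c 0) (c 1) (c 2) (e 0) (e 1) (e 2)
    (hl 0 (by norm_num)) (hl 1 (by norm_num)) (hl 2 (by norm_num))
    (hc 0 (by norm_num)) (hc 1 (by norm_num)) (hc 2 (by norm_num))
    (fun x => orb l c e x 1) (fun x => orb l c e x 2) (fun x => orb l c e x 3)
    (fun x => rfl) (fun x => rfl) (fun x => rfl) with h | h
  · right
    have : (fixedPts l c e 3).encard ≤ (5 : ℕ) := by
      apply encard_le_of_finset
      intro s hs
      refine h s (fun x hx => ?_)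
      obtain ⟨h1, h2⟩ := hs x hx
      exact ⟨⟨h1 0 (by norm_num), h1 1 (by norm_num), h1 2 (by norm_num)⟩, h2⟩
    exact_mod_cast this
  · left
    intro x hx
    exact h x (hx 0 (by norm_num)) (hx 1 (by norm_num)) (hx 2 (by norm_num))

end Pool.H89.PW
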